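import Pool.Agent.H912R3.Cov.Poly

set_option autoImplicit false

namespace Pool.Agent.Results.MP_b10815_co.FlatnessUpperBound

open Set

/-- A convex body: a compact convex set with nonempty interior. -/
def IsConvexBody {d : ℕ} (K : Set (EuclideanSpace ℝ (Fin d))) : Prop :=
  IsCompact K ∧ Convex ℝ K ∧ (interior K).Nonempty

/-- `x` is an integer point. -/
def IsIntPoint {d : ℕ} (x : EuclideanSpace ℝ (Fin d)) : Prop := ∀ i, ∃ z : ℤ, x i = (z : ℝ)

/-- The integer points of `K`. -/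
def intPoints {d : ℕ} (K : Set (EuclideanSpace ℝ (Fin d))) : Set (EuclideanSpace ℝ (Fin d)) :=
  {x | x ∈ K ∧ IsIntPoint x}

/-- `S` is contained in a union of `N` affine hyperplanes. -/
def CoveredBy {d : ℕ} (S : Set (EuclideanSpace ℝ (Fin d))) (N : ℕ) : Prop :=
  ∃ (u : Fin N → EuclideanSpace ℝ (Fin d)) (c : Fin N → ℝ), (∀ i, u i ≠ 0) ∧
    ∀ x ∈ S, ∃ i, inner ℝ x (u i) = c i

/-- `S` is contained in a union of `m` parallel affine hyperplanes (common normal `u`). -/
def CoveredByParallel {d : ℕ} (S : Set (EuclideanSpace ℝ (Fin d))) (m : ℕ) : Prop :=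
  ∃ (u : EuclideanSpace ℝ (Fin d)) (c : Fin m → ℝ), u ≠ 0 ∧
    ∀ x ∈ S, ∃ i, inner ℝ x u = c i

/-- The real number `c > 0` is admissible in dimension `d`: for every convex body `K` and `N ≥ 1`,
if the integer points of `K` are covered by `N` hyperplanes then they are covered by at most
`c N` parallel hyperplanes. -/
def Admissible (d : ℕ) (c : ℝ) : Prop :=
  0 < c ∧ ∀ K : Set (EuclideanSpace ℝ (Fin d)), IsConvexBody K → ∀ N : ℕ, 1 ≤ N →
    CoveredBy (intPoints K) N → ∃ m : ℕ, (m : ℝ) ≤ c * N ∧ CoveredByParallel (intPoints K) m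

/-- The width of `K` in some nonzero integer direction is at most `W`
(that is, the lattice width of `K` is at most `W`). -/
def LatticeWidthLE {d : ℕ} (K : Set (EuclideanSpace ℝ (Fin d))) (W : ℝ) : Prop :=
  ∃ y : Fin d → ℤ, y ≠ 0 ∧ ∃ a : ℝ, ∀ x ∈ K,
    a ≤ ∑ i, (y i : ℝ) * x i ∧ ∑ i, (y i : ℝ) * x i ≤ a + W

/-- `F` is an upper bound for the flatness constant `Flt(d)`: every convex body without integer
points in its interior has lattice width at most `F`. -/
def FlatnessBound (d : ℕ) (F : ℝ) : Prop :=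
  ∀ K : Set (EuclideanSpace ℝ (Fin d)), IsConvexBody K → (∀ x ∈ interior K, ¬ IsIntPoint x) →
    LatticeWidthLE K F

open H912Cov in
lemma flat_conv {d : ℕ} {F : ℝ} (hF : FlatnessBound d F)
    (K : Set (EuclideanSpace ℝ (Fin d))) (h1 : IsCompact K) (h2 : Convex ℝ K)
    (h3 : (interior K).Nonempty) (h4 : ∀ z : Fin d → ℤ, io d z ∉ interior K) :
    ∃ y : Fin d → ℤ, y ≠ 0 ∧ ∃ a : ℝ, ∀ x ∈ K, a ≤ ∑ i, (y i : ℝ) * x i ∧
        ∑ i, (y i : ℝ) * x i ≤ a + F := by
  apply hF K ⟨h1, h2, h3⟩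
  intro x hx hint
  choose z hz using hint
  apply h4 z
  have e : io d z = x := by
    ext i
    rw [io_apply, hz]
  rw [e]
  exact hx

open H912Cov in
/-- **Main theorem.** -/
theorem result :
    -- the integer points of `K` on an algebraic hypersurface of degree at most `N`
    (∀ (d N : ℕ) (F : ℝ), FlatnessBound d F → ∀ K : Set (EuclideanSpace ℝ (Fin d)),
      IsConvexBody K → ∀ p : MvPolynomial (Fin d) ℝ, p ≠ 0 → p.totalDegree ≤ N →
      (∀ x ∈ intPoints K, MvPolynomial.eval (fun i => x i) p = 0) →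
      LatticeWidthLE K ((N + 1) * F)) ∧
    -- the upper bound for `c(d)`
    (∀ (d : ℕ) (F : ℝ), 1 ≤ F → FlatnessBound d F → Admissible d ((3 * F + 1) / 2)) := by
  constructor
  · intro d N F hF K hK p hp hdeg hvan
    obtain ⟨y, hy, a, ha⟩ := width_of_vanish (N := N) F (flat_conv hF) K hK.1 hK.2.1 hK.2.2
      (fun z : Fin d → ℤ => MvPolynomial.eval (fun i => (z i : ℝ)) p) (PD_poly p hdeg)
      (by
        intro h0
        obtain ⟨z, hz⟩ := poly_ne p hp
        exact hz (congrFun h0 z))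
      (fun z hz => hvan (io d z) ⟨hz, fun i => ⟨z i, rfl⟩⟩)
    exact ⟨y, hy, a, ha⟩
  · intro d F hF1 hF
    refine ⟨by positivity, fun K hK N hN hcov => ?_⟩
    obtain ⟨u, c, hu, hcov⟩ := hcov
    rcases Nat.lt_or_ge 1 N with hN2 | hN1
    · -- at least two hyperplanes
      obtain ⟨y, hy, a, ha⟩ := width_of_cover F (flat_conv hF) K hK.1 hK.2.1 hK.2.2 u c hu
        (fun z hz => hcov (io d z) ⟨hz, fun i => ⟨z i, rfl⟩⟩)
      set W : ℝ := ((N : ℝ) + 1) * F with hW
      have hW0 : 0 ≤ W := by positivity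
      refine ⟨⌊W⌋₊ + 1, ?_, io d y, fun k => (⌈a⌉ : ℝ) + (k : ℕ), ?_, ?_⟩
      · have h1 : (⌊W⌋₊ : ℝ) ≤ W := Nat.floor_le hW0
        have h2 : (2 : ℝ) ≤ N := by exact_mod_cast hN2
        push_cast
        nlinarith
      · intro h0
        apply hy
        funext i
        have h1 : (io d y) i = 0 := by rw [h0]; rfl
        rw [io_apply] at h1
        exact Int.cast_eq_zero.mp h1
      · rintro x ⟨hx, hxi⟩
        exact slab_count y a W x hxi (ha x hx).1 (ha x hx).2
    · -- one hyperplane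
      have hN' : N = 1 := le_antisymm hN1 hN
      subst hN'
      refine ⟨1, ?_, u 0, c, hu 0, ?_⟩
      · push_cast
        linarith
      · intro x hx
        obtain ⟨i, hi⟩ := hcov x hx
        have : i = 0 := Subsingleton.elim _ _
        subst this
        exact ⟨0, hi⟩

end Pool.Agent.Results.MP_b10815_co.FlatnessUpperBound
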