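import Pool.Agent.H912R3.Cov.Main
import Pool.Agent.H912R3.Cov.Eq

set_option autoImplicit false

namespace Pool.Agent.Results.MP_b10815_co.LinearIffFlatnessLinear

open Set

/-- A convex body: a compact convex set with nonempty interior. -/
def IsConvexBody {d : ℕ} (K : Set (EuclideanSpace ℝ (Fin d))) : Prop :=
  IsCompact K ∧ Convex ℝ K ∧ (interior K).Nonempty

/-- `x` is an integer point. -/
def IsIntPoint {d : ℕ} (x : EuclideanSpace ℝ (Fin d)) : Prop := ∀ i, ∃ z : ℤ, x i = (z : ℝ)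

/-- The integer points of `K`. -/
def intPoints {d : ℕ} (K : Set (EuclideanSpace ℝ (Fin d))) : Set (EuclideanSpace ℝ (Fin d)) :=
  {x | x ∈ K ∧ IsIntPoint x}

/-- `S` is contained in a union of `N` affine hyperplanes. -/
def CoveredBy {d : ℕ} (S : Set (EuclideanSpace ℝ (Fin d))) (N : ℕ) : Prop :=
  ∃ (u : Fin N → EuclideanSpace ℝ (Fin d)) (c : Fin N → ℝ), (∀ i, u i ≠ 0) ∧
    ∀ x ∈ S, ∃ i, inner ℝ x (u i) = c i

/-- `S` is contained in a union of `m` parallel affine hyperplanes (common normal `u`). -/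
def CoveredByParallel {d : ℕ} (S : Set (EuclideanSpace ℝ (Fin d))) (m : ℕ) : Prop :=
  ∃ (u : EuclideanSpace ℝ (Fin d)) (c : Fin m → ℝ), u ≠ 0 ∧
    ∀ x ∈ S, ∃ i, inner ℝ x u = c i

/-- The real number `c > 0` is admissible in dimension `d`: for every convex body `K` and `N ≥ 1`,
if the integer points of `K` are covered by `N` hyperplanes then they are covered by at most
`c N` parallel hyperplanes. -/
def Admissible (d : ℕ) (c : ℝ) : Prop :=
  0 < c ∧ ∀ K : Set (EuclideanSpace ℝ (Fin d)), IsConvexBody K → ∀ N : ℕ, 1 ≤ N →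
    CoveredBy (intPoints K) N → ∃ m : ℕ, (m : ℝ) ≤ c * N ∧ CoveredByParallel (intPoints K) m

/-- The width of `K` in some nonzero integer direction is at most `W`
(that is, the lattice width of `K` is at most `W`). -/
def LatticeWidthLE {d : ℕ} (K : Set (EuclideanSpace ℝ (Fin d))) (W : ℝ) : Prop :=
  ∃ y : Fin d → ℤ, y ≠ 0 ∧ ∃ a : ℝ, ∀ x ∈ K,
    a ≤ ∑ i, (y i : ℝ) * x i ∧ ∑ i, (y i : ℝ) * x i ≤ a + W

/-- `F` is an upper bound for the flatness constant `Flt(d)`: every convex body without integer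
points in its interior has lattice width at most `F`. -/
def FlatnessBound (d : ℕ) (F : ℝ) : Prop :=
  ∀ K : Set (EuclideanSpace ℝ (Fin d)), IsConvexBody K → (∀ x ∈ interior K, ¬ IsIntPoint x) →
    LatticeWidthLE K F

open H912Cov in
lemma flat_conv {d : ℕ} {F : ℝ} (hF : FlatnessBound d F)
    (K : Set (EuclideanSpace ℝ (Fin d))) (h1 : IsCompact K) (h2 : Convex ℝ K)
    (h3 : (interior K).Nonempty) (h4 : ∀ z : Fin d → ℤ, io d z ∉ interior K) :
    ∃ y : Fin d → ℤ, y ≠ 0 ∧ ∃ a : ℝ, ∀ x ∈ K, a ≤ ∑ i, (y i : ℝ) * x i ∧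
        ∑ i, (y i : ℝ) * x i ≤ a + F := by
  apply hF K ⟨h1, h2, h3⟩
  intro x hx hint
  choose z hz using hint
  apply h4 z
  have e : io d z = x := by
    ext i
    rw [io_apply, hz]
  rw [e]
  exact hx


open H912Cov in
/-- the upper bound for `c(d)` in terms of the flatness constant -/
lemma upper (d : ℕ) (F : ℝ) (hF1 : 1 ≤ F) (hF : FlatnessBound d F) :
    Admissible d ((3 * F + 1) / 2) := by
  refine ⟨by positivity, fun K hK N hN hcov => ?_⟩
  obtain ⟨u, c, hu, hcov⟩ := hcov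
  rcases Nat.lt_or_ge 1 N with hN2 | hN1
  · obtain ⟨y, hy, a, ha⟩ := width_of_cover F (flat_conv hF) K hK.1 hK.2.1 hK.2.2 u c hu
      (fun z hz => hcov (io d z) ⟨hz, fun i => ⟨z i, rfl⟩⟩)
    set W : ℝ := ((N : ℝ) + 1) * F with hW
    have hW0 : 0 ≤ W := by positivity
    refine ⟨⌊W⌋₊ + 1, ?_, io d y, fun k => (⌈a⌉ : ℝ) + (k : ℕ), ?_, ?_⟩
    · have h1 : (⌊W⌋₊ : ℝ) ≤ W := Nat.floor_le hW0
      have h2 : (2 : ℝ) ≤ N := by exact_mod_cast hN2
      push_cast
      nlinarith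
    · intro h0
      apply hy
      funext i
      have h1 : (io d y) i = 0 := by rw [h0]; rfl
      rw [io_apply] at h1
      exact Int.cast_eq_zero.mp h1
    · rintro x ⟨hx, hxi⟩
      exact slab_count y a W x hxi (ha x hx).1 (ha x hx).2
  · have hN' : N = 1 := le_antisymm hN1 hN
    subst hN'
    refine ⟨1, ?_, u 0, c, hu 0, ?_⟩
    · push_cast
      linarith
    · intro x hx
      obtain ⟨i, hi⟩ := hcov x hx
      have : i = 0 := Subsingleton.elim _ _
      subst this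
      exact ⟨0, hi⟩

lemma Admissible.mono {d : ℕ} {c c' : ℝ} (h : c ≤ c') (hc : Admissible d c) : Admissible d c' := by
  refine ⟨hc.1.trans_le h, fun K hK N hN hcov => ?_⟩
  obtain ⟨m, hm, hp⟩ := hc.2 K hK N hN hcov
  exact ⟨m, hm.trans (mul_le_mul_of_nonneg_right h (Nat.cast_nonneg N)), hp⟩

lemma FlatnessBound.mono {d : ℕ} {F F' : ℝ} (h : F ≤ F') (hF : FlatnessBound d F) :
    FlatnessBound d F' := by
  intro K hK hfree
  obtain ⟨y, hy, a, ha⟩ := hF K hK hfree
  exact ⟨y, hy, a, fun x hx => ⟨(ha x hx).1, (ha x hx).2.trans (by linarith)⟩⟩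

open H912Cov in
lemma two_of_admissible {d : ℕ} {c : ℝ} (hc : Admissible d c) : Two d c := by
  rintro K h1 h2 h3 ⟨u, v, hu, hv, hcov⟩
  obtain ⟨m, hm, w, s, hw, hs⟩ := hc.2 K ⟨h1, h2, h3⟩ 2 (by norm_num)
    ⟨![u, v], ![0, 0], by
      intro i
      fin_cases i
      · exact hu
      · exact hv, by
      rintro x ⟨hx, hxi⟩
      rcases hcov x hx hxi with h | h
      · exact ⟨0, h⟩
      · exact ⟨1, h⟩⟩
  refine ⟨m, by exact_mod_cast hm, w, s, hw, fun x hx hxi => ?_⟩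
  exact hs x ⟨hx, hxi⟩

open H912Cov in
lemma flat_of_admissible (n : ℕ) (A : ℝ) (hA : 0 ≤ A)
    (h : ∀ h₀ : ℕ, ∃ h ≥ h₀, Admissible (2 * h * n + 2) (A * ((2 * h * n + 2 : ℕ) : ℝ))) :
    FlatnessBound n (2 * A * n) := by
  intro K hK hfree
  by_contra hcon
  let e := EuclideanSpace.equiv (Fin n) ℝ
  have he : ∀ x i, e x i = x i := fun x i => rfl
  have hint : interior (e '' K) = e '' interior K :=
    (e.toHomeomorph.image_interior K).symm
  refine lower hA (fun h0 => ?_) (P0 := e '' K) ⟨hK.1.image e.continuous, ?_, ?_⟩ ?_ ?_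
  · obtain ⟨k, hk, hadm⟩ := h h0
    exact ⟨k, hk, two_of_admissible hadm⟩
  · exact hK.2.1.linear_image e.toLinearEquiv.toLinearMap
  · rw [hint]
    exact hK.2.2.image _
  · intro z hz
    rw [hint] at hz
    obtain ⟨x, hx, hxz⟩ := hz
    apply hfree x hx
    intro i
    refine ⟨z i, ?_⟩
    rw [← he, hxz]
    rfl
  · intro Y hY a
    by_contra hno
    push Not at hno
    apply hcon
    refine ⟨Y, hY, a, fun x hx => ?_⟩
    by_contra hx'
    have h1 := hno (e x) ⟨x, hx, rfl⟩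
    apply hx'
    exact h1

/-- **Main theorem.** -/
theorem result :
    -- the converse inequality between `Flt` and `c`
    (∀ (n : ℕ) (A : ℝ), 0 ≤ A →
      (∀ h₀ : ℕ, ∃ h ≥ h₀, Admissible (2 * h * n + 2) (A * ((2 * h * n + 2 : ℕ) : ℝ))) →
      FlatnessBound n (2 * A * n)) ∧
    -- `c(d) = O(d)` if and only if `Flt(d) = O(d)`
    ((∃ A : ℝ, ∀ d : ℕ, 1 ≤ d → Admissible d (A * d)) ↔
      ∃ C : ℝ, ∀ d : ℕ, 1 ≤ d → FlatnessBound d (C * d)) := by
  refine ⟨flat_of_admissible, ?_, ?_⟩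
  · rintro ⟨A, hA⟩
    have hA0 : 0 ≤ A := by
      have := (hA 1 le_rfl).1
      push_cast at this
      linarith
    refine ⟨2 * A, fun n _ => flat_of_admissible n A hA0 fun h₀ => ⟨h₀, le_rfl, ?_⟩⟩
    exact hA _ (by omega)
  · rintro ⟨C, hC⟩
    refine ⟨2 * max C 1, fun d hd => ?_⟩
    have hd' : (1 : ℝ) ≤ d := by exact_mod_cast hd
    have h1 : FlatnessBound d (max C 1 * d) :=
      (hC d hd).mono (mul_le_mul_of_nonneg_right (le_max_left _ _) (by linarith))
    have h2 : 1 ≤ max C 1 * d := by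
      have : (1 : ℝ) ≤ max C 1 := le_max_right _ _
      nlinarith
    refine (upper d _ h2 h1).mono ?_
    linarith

end Pool.Agent.Results.MP_b10815_co.LinearIffFlatnessLinear
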